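import Mathlib
import Pool.Agent.Run7.h767.ST.Gal

/-!
# The derivatives at `0` of partial zeta functions by prime ideals, and the rank one abelian
Stark conjecture in Tate's form

(A) Let `K` be a number field, `𝔣` an ideal, `0 ≠ 𝔣 ≠ 𝓞 K`, `P` a set of real embeddings of `K`;
suppose that `K` has a complex place or that `P` does not contain all the real embeddings. Let `A`
be a homomorphism from the ray class group modulo `𝔣 P` to a finite commutative group `G` (for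
instance the Artin map of an abelian extension). For `ρ ∈ G` the partial zeta function
`ζ(ρ, s) = ∑_(A(𝔞) = ρ) N(𝔞)^(-s)` has a continuation, analytic outside of `1`, it vanishes at `0`,
and for every `γ > π / 2`

  `ζ'(ρ, 0) = T e^(-Λ_γ) (1 / |G|) ∑_ψ conj ψ(ρ) exp (∑_(τ ∈ G) ψ(τ) S_τ(T)) + O(1 / T)`,

  `S_τ(T) = ∑_(𝔭, k : A(𝔭 ^ k) = τ) (1 / k) e^(i γ u) / Γ(1 + u)`, `u = k log N(𝔭) / T`,

where `ψ` runs through the characters of `G`, and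
`Λ_γ = ∫_0^∞ (e^(-t) - e^(i γ t) / Γ(1 + t)) dt / t`. This is unconditional; no continuation and no
zeros occur on the right: the prime ideals, sorted by their classes, are counted with the weight `1`
(the point `s = 0`). In the group ring of `G` the right side is the coefficient of `ρ` in
`T e^(-Λ_γ) exp (∑_τ S_τ(T) τ)`.

(B) Let `H / K` be a finite abelian extension, `S` the set of the archimedean places of `K` and of the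
prime divisors of an ideal `𝔣`, `0 ≠ 𝔣 ≠ 𝓞 K`, such that `𝔣 P` is a modulus of `H / K` (Artin's
reciprocity law), and let `v₀` be an archimedean place of `K` which is totally split in `H`, complex
or real outside of `P`. The assertion of Q1 for `H / K, S, v₀` (and `w₀` over `v₀`) holds if and only if
there is an `ε ∈ U^T_(S,H)` with `H(ε^(1/W)) / K` abelian and
`log |g(ε)|_(w₀) = - W lim_(T → ∞) E_g(T)` for all `g`, where `E_g(T)` is the right side in (A), a sum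
over prime ideals of `K` sorted by their Frobenius automorphisms in `H`. The limit may be taken along
any sequence (any filter `l ≤ atTop`).
-/

set_option autoImplicit false
set_option linter.unusedSectionVars false

namespace Pool.Agent.Results.MP_ca56d1_nt.PartialZetaByPrimes

open NumberField IsDedekindDomain Filter Topology Asymptotics

section defs

variable {K : Type} [Field K] [NumberField K] {G : Type} [Group G]

/-- `x` is positive at the real embeddings in `P`. -/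
def Pos (P : Set (K →+* ℝ)) (x : 𝓞 K) : Prop := ∀ σ ∈ P, 0 < σ (x : K)

/-- On the ideals prime to `𝔣` the function `A` is a homomorphism from the ray class group modulo
`𝔣 P` to `G` (its values at the other ideals are irrelevant). -/
structure IsRayHom (𝔣 : Ideal (𝓞 K)) (P : Set (K →+* ℝ)) (A : Ideal (𝓞 K) → G) : Prop where
  mul : ∀ 𝔞 𝔟, IsCoprime 𝔞 𝔣 → IsCoprime 𝔟 𝔣 → A (𝔞 * 𝔟) = A 𝔞 * A 𝔟
  ray : ∀ x : 𝓞 K, x - 1 ∈ 𝔣 → Pos P x → A (Ideal.span {x}) = 1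

/-- `H / K` is a finite abelian extension, `A` is its Artin map on the ideals prime to `𝔣` (arithmetic
Frobenius automorphisms), the primes which do not divide `𝔣` are unramified, and `𝔣 P` is a modulus:
`A((x)) = 1` for the `P`-positive `x ≡ 1 mod 𝔣` (Artin's reciprocity law). -/
structure IsArtinMap (H : Type) [Field H] [NumberField H] [Algebra K H]
    (𝔣 : Ideal (𝓞 K)) (P : Set (K →+* ℝ)) (A : Ideal (𝓞 K) → (H ≃ₐ[K] H)) : Prop where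
  galois : IsGalois K H
  comm : ∀ a b : H ≃ₐ[K] H, a * b = b * a
  unram : ∀ 𝔭 : Ideal (𝓞 K), 𝔭.IsPrime → 𝔭 ≠ ⊥ → IsCoprime 𝔭 𝔣 → ∀ 𝔓 : Ideal (𝓞 H), 𝔓.IsPrime →
    𝔓.comap (algebraMap (𝓞 K) (𝓞 H)) = 𝔭 → ∀ σ : H ≃ₐ[K] H, σ ≠ 1 → ∃ x : 𝓞 H, ∀ y ∈ 𝔓,
      ((y : 𝓞 H) : H) ≠ σ (x : H) - (x : H)
  frob : ∀ 𝔭 : Ideal (𝓞 K), 𝔭.IsPrime → 𝔭 ≠ ⊥ → IsCoprime 𝔭 𝔣 → ∀ 𝔓 : Ideal (𝓞 H), 𝔓.IsPrime →
    𝔓.comap (algebraMap (𝓞 K) (𝓞 H)) = 𝔭 → ∀ x : 𝓞 H, ∃ y ∈ 𝔓,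
      ((y : 𝓞 H) : H) = A 𝔭 (x : H) - (x : H) ^ Ideal.absNorm 𝔭
  mul : ∀ 𝔞 𝔟, IsCoprime 𝔞 𝔣 → IsCoprime 𝔟 𝔣 → A (𝔞 * 𝔟) = A 𝔞 * A 𝔟
  ray : ∀ x : 𝓞 K, x - 1 ∈ 𝔣 → Pos P x → A (Ideal.span {x}) = 1

/-- `Z` is the continuation of the partial zeta function
`∑_(𝔞 prime to 𝔣, A(𝔞) = ρ) N(𝔞)^(-s)`. -/
def IsPartialZeta (𝔣 : Ideal (𝓞 K)) (A : Ideal (𝓞 K) → G) (ρ : G) (Z : ℂ → ℂ) : Prop :=
  (∀ s, MeromorphicAt Z s) ∧ AnalyticAt ℂ Z 0 ∧ ∀ s : ℂ, 1 < s.re →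
    Z s = ∑' 𝔞 : {𝔞 : Ideal (𝓞 K) // IsCoprime 𝔞 𝔣 ∧ A 𝔞 = ρ},
      ((Ideal.absNorm 𝔞.1 : ℕ) : ℂ) ^ (-s)

open Classical in
/-- `1 / k` if `𝔞 = 𝔭 ^ k` with a prime ideal `𝔭` and `k ≥ 1`, and `0` if `𝔞` is not such a power:
`log N(rad 𝔞) / log N(𝔞)`. -/
noncomputable def wt (𝔞 : Ideal (𝓞 K)) : ℝ :=
  if IsPrimePow 𝔞 then Real.log (Ideal.absNorm 𝔞.radical) / Real.log (Ideal.absNorm 𝔞) else 0

/-- `(1 / k) e^(i γ u) / Γ(1 + u)`, `u = log N(𝔞) / T`, for `𝔞 = 𝔭 ^ k`. -/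
noncomputable def term (γ T : ℝ) (𝔞 : Ideal (𝓞 K)) : ℂ :=
  (wt 𝔞 : ℂ) * Complex.exp ((γ * (Real.log (Ideal.absNorm 𝔞) / T) : ℝ) * Complex.I) *
    ((Real.Gamma (1 + Real.log (Ideal.absNorm 𝔞) / T))⁻¹ : ℝ)

/-- `S_τ(T)`: the sum over the powers of prime ideals prime to `𝔣` with `A(𝔭 ^ k) = τ`. -/
noncomputable def primeSum (𝔣 : Ideal (𝓞 K)) (A : Ideal (𝓞 K) → G) (τ : G) (γ T : ℝ) : ℂ :=
  ∑' 𝔞 : {𝔞 : Ideal (𝓞 K) // IsCoprime 𝔞 𝔣 ∧ A 𝔞 = τ}, term γ T 𝔞.1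

/-- `Λ_γ = ∫_0^∞ (e^(-t) - e^(i γ t) / Γ(1 + t)) dt / t`. -/
noncomputable def Lam (γ : ℝ) : ℂ := ∫ t in Set.Ioi (0 : ℝ),
  (Complex.exp (-(t : ℂ)) - Complex.exp ((γ * t : ℝ) * Complex.I) *
    ((Real.Gamma (1 + t))⁻¹ : ℝ)) / t

/-- `E_ρ(T) = T e^(-Λ_γ) (1 / |G|) ∑_ψ conj ψ(ρ) exp (∑_τ ψ(τ) S_τ(T))`, `ψ` the characters. -/
noncomputable def approx (𝔣 : Ideal (𝓞 K)) (A : Ideal (𝓞 K) → G) (ρ : G) (γ T : ℝ) : ℂ :=
  T * Complex.exp (-Lam γ) * ((Nat.card G : ℂ)⁻¹ *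
    ∑ᶠ ψ : G →* ℂˣ, (starRingEnd ℂ) ((ψ ρ : ℂˣ) : ℂ) *
      Complex.exp (∑ᶠ τ : G, ((ψ τ : ℂˣ) : ℂ) * primeSum 𝔣 A τ γ T))

variable {H : Type} [Field H] [NumberField H] [Algebra K H]

/-- The places of `F`. -/
abbrev Place (F : Type) [Field F] [NumberField F] : Type :=
  InfinitePlace F ⊕ HeightOneSpectrum (𝓞 F)

/-- The normalised absolute value at a place: `|x|` at a real place, `|x|^2` at a complex place and
`N(𝔮)^(-ord x)` at `𝔮`. -/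
noncomputable def absAt : Place H → H → ℝ
  | .inl w, x => w x ^ w.mult
  | .inr q, x => FinitePlace.mk q x

/-- The place `Q` of `H` lies over the place `q` of `K`. -/
def Over : Place H → Place K → Prop
  | .inl w, .inl v => w.comap (algebraMap K H) = v
  | .inr Q, .inr q => Q.asIdeal.comap (algebraMap (𝓞 K) (𝓞 H)) = q.asIdeal
  | _, _ => False

/-- `S`: the archimedean places of `K` and the primes which divide `𝔣`. -/
def S (𝔣 : Ideal (𝓞 K)) : Set (Place K) :=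
  {q | ∀ p : HeightOneSpectrum (𝓞 K), q = .inr p → p.asIdeal ∣ 𝔣}

/-- `T = S \ {v₀}`. -/
def T (𝔣 : Ideal (𝓞 K)) (v₀ : InfinitePlace K) : Set (Place K) := S 𝔣 \ {.inl v₀}

/-- The group `U^T_(S,H)` for `S` and the split place `v₀`. -/
structure InU (𝔣 : Ideal (𝓞 K)) (v₀ : InfinitePlace K) (x : H) : Prop where
  ne_zero : x ≠ 0
  outside : ∀ q : Place K, q ∉ S 𝔣 → ∀ Q : Place H, Over Q q → absAt Q x = 1
  many : (T 𝔣 v₀).Nontrivial → ∀ q ∈ T 𝔣 v₀, ∀ Q : Place H, Over Q q → absAt Q x = 1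
  one : ∀ q : Place K, T 𝔣 v₀ = {q} → ∀ Q Q' : Place H, Over Q q → Over Q' q →
    absAt Q x = absAt Q' x

/-- The archimedean place `v₀` is totally split in `H` (and does not belong to `P`). -/
def Split (H : Type) [Field H] [NumberField H] [Algebra K H] (P : Set (K →+* ℝ))
    (v₀ : InfinitePlace K) : Prop :=
  v₀.IsComplex ∨ (∃ σ : K →+* ℝ, σ ∉ P ∧ InfinitePlace.mk (Complex.ofRealHom.comp σ) = v₀) ∧
    ∀ w : InfinitePlace H, w.comap (algebraMap K H) = v₀ → w.IsReal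

/-- `H(x^(1/W))` is abelian over `K`. -/
def RootAbelian (K : Type) [Field K] [NumberField K] [Algebra K H] (x : H) : Prop :=
  ∃ θ : AlgebraicClosure H, θ ^ Units.torsionOrder H = algebraMap H (AlgebraicClosure H) x ∧
    IsGalois K (IntermediateField.adjoin H {θ}) ∧
      ∀ σ τ : IntermediateField.adjoin H {θ} ≃ₐ[K] IntermediateField.adjoin H {θ}, σ * τ = τ * σ

/-- The assertion of Q1 for `H / K`, `S` (the archimedean places and the divisors of `𝔣`), the split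
place `v₀` and the place `w₀` over `v₀`. -/
def Stark (𝔣 : Ideal (𝓞 K)) (A : Ideal (𝓞 K) → (H ≃ₐ[K] H)) (v₀ : InfinitePlace K)
    (w₀ : InfinitePlace H) : Prop :=
  ∃ ε : H, InU 𝔣 v₀ ε ∧ (∀ g Z, IsPartialZeta 𝔣 A g Z →
    (Real.log (absAt (.inl w₀) (g ε)) : ℂ) = -(Units.torsionOrder H : ℂ) * deriv Z 0) ∧
      RootAbelian K ε

/-- The same assertion with the limit of `-W E_g(T)` along `l` in place of `-W ζ_S'(g, 0)`. -/
def StarkLim (γ : ℝ) (l : Filter ℝ) (𝔣 : Ideal (𝓞 K)) (A : Ideal (𝓞 K) → (H ≃ₐ[K] H))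
    (v₀ : InfinitePlace K) (w₀ : InfinitePlace H) : Prop :=
  ∃ ε : H, InU 𝔣 v₀ ε ∧ (∀ g, Tendsto (fun t : ℝ => -(Units.torsionOrder H : ℂ) *
    approx 𝔣 A g γ t) l (𝓝 (Real.log (absAt (.inl w₀) (g ε)) : ℂ))) ∧ RootAbelian K ε

/-- `R` holds for every finite abelian extension `H / K`, every modulus `𝔣 P` of `H / K` with
`0 ≠ 𝔣 ≠ 𝓞 K`, the Artin map `A`, every totally split archimedean place `v₀` of `K` outside of `P` and
every place `w₀` of `H` over `v₀`. -/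
def ForAll (R : ∀ (K H : Type) [Field K] [NumberField K] [Field H] [NumberField H] [Algebra K H],
    Ideal (𝓞 K) → (Ideal (𝓞 K) → (H ≃ₐ[K] H)) → InfinitePlace K → InfinitePlace H → Prop) : Prop :=
  ∀ (K H : Type) [Field K] [NumberField K] [Field H] [NumberField H] [Algebra K H]
    (𝔣 : Ideal (𝓞 K)) (P : Set (K →+* ℝ)), 𝔣 ≠ ⊥ → 𝔣 ≠ ⊤ →
      ∀ A : Ideal (𝓞 K) → (H ≃ₐ[K] H), IsArtinMap H 𝔣 P A →
        ∀ v₀ : InfinitePlace K, Split H P v₀ →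
          ∀ w₀ : InfinitePlace H, w₀.comap (algebraMap K H) = v₀ → R K H 𝔣 A v₀ w₀

end defs

section proofs

variable {K : Type} [Field K] [NumberField K]

open Classical in
lemma term_eq (γ T : ℝ) (𝔞 : Ideal (𝓞 K)) : term γ T 𝔞 = Run7.h767.ST.tm γ T 𝔞 := by
  have h : (wt 𝔞 : ℝ) = Pool.Agent.Y773.VM 𝔞 / Run7.h767.ST.lg 𝔞 := by
    unfold wt Pool.Agent.Y773.VM Run7.h767.ST.lg
    split_ifs
    · rfl
    · rw [zero_div]
  unfold term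
  rw [h]
  rfl

lemma approx_eq {G : Type} [Group G] (𝔣 : Ideal (𝓞 K)) (A : Ideal (𝓞 K) → G) (ρ : G) (γ T : ℝ) :
    approx 𝔣 A ρ γ T = Run7.h767.ST.apG 𝔣 A ρ γ T := by
  have h : ∀ τ : G, primeSum 𝔣 A τ γ T = Run7.h767.ST.SG 𝔣 A τ γ T := by
    intro τ
    unfold primeSum Run7.h767.ST.SG
    exact tsum_congr fun 𝔞 => term_eq γ T 𝔞.1
  unfold approx Run7.h767.ST.apG
  simp only [h]
  rfl

lemma IsRayHom.isArt {G : Type} [Group G] {𝔣 : Ideal (𝓞 K)} {P : Set (K →+* ℝ)}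
    {A : Ideal (𝓞 K) → G} (h : IsRayHom 𝔣 P A) : Run7.h767.ST.IsArt 𝔣 P A :=
  ⟨h.mul, h.ray⟩

/-- (A) -/
lemma partA {P : Set (K →+* ℝ)} (hK : (∃ w : InfinitePlace K, w.IsComplex) ∨ P ≠ Set.univ)
    {𝔣 : Ideal (𝓞 K)} (hbot : 𝔣 ≠ ⊥) (htop : 𝔣 ≠ ⊤) {G : Type} [Group G] [Finite G]
    (hG : ∀ a b : G, a * b = b * a) {A : Ideal (𝓞 K) → G} (hA : IsRayHom 𝔣 P A) (ρ : G) :
    (∃ Z, IsPartialZeta 𝔣 A ρ Z ∧ ∀ s : ℂ, s ≠ 1 → AnalyticAt ℂ Z s) ∧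
      ∀ Z, IsPartialZeta 𝔣 A ρ Z → Z 0 = 0 ∧ ∀ γ : ℝ, Real.pi / 2 < γ →
        (fun T : ℝ => approx 𝔣 A ρ γ T - deriv Z 0) =O[atTop] fun T : ℝ => 1 / T := by
  obtain ⟨Z₀, h1, h2, h3, h4, h5⟩ := Run7.h767.ST.main_G hK hbot htop hG hA.isArt ρ
  have hZ₀ : IsPartialZeta 𝔣 A ρ Z₀ := ⟨h2, h1 0 (by norm_num), h3⟩
  refine ⟨⟨Z₀, hZ₀, h1⟩, fun Z hZ => ?_⟩
  have h6 : Z =ᶠ[𝓝 0] Z₀ := Run7.h767.ST.mero_uniq hZ.1 hZ₀.1 hZ.2.1 hZ₀.2.1 fun s hs => by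
    rw [hZ.2.2 s hs, hZ₀.2.2 s hs]
  refine ⟨h6.eq_of_nhds.trans h4, fun γ hγ => ?_⟩
  rw [h6.deriv_eq]
  exact (h5 γ hγ).congr_left fun T => by rw [approx_eq]

lemma tendsto_of_isBigO {f : ℝ → ℂ} {c : ℂ}
    (h : (fun T : ℝ => f T - c) =O[atTop] fun T : ℝ => 1 / T) : Tendsto f atTop (𝓝 c) := by
  have h1 : Tendsto (fun T : ℝ => f T - c) atTop (𝓝 0) :=
    h.trans_tendsto (tendsto_const_nhds.div_atTop tendsto_id)
  have h2 := h1.add_const c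
  simpa using h2

variable {H : Type} [Field H] [NumberField H] [Algebra K H]

lemma split_hK {P : Set (K →+* ℝ)} {v₀ : InfinitePlace K} (h : Split H P v₀) :
    (∃ w : InfinitePlace K, w.IsComplex) ∨ P ≠ Set.univ := by
  rcases h with h | ⟨⟨σ, hσ, -⟩, -⟩
  · exact Or.inl ⟨v₀, h⟩
  · refine Or.inr fun hP => hσ ?_
    rw [hP]
    exact Set.mem_univ _

/-- the derivatives of the partial zeta functions of an abelian extension -/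
lemma deriv_iff {P : Set (K →+* ℝ)} (hK : (∃ w : InfinitePlace K, w.IsComplex) ∨ P ≠ Set.univ)
    {𝔣 : Ideal (𝓞 K)} (hbot : 𝔣 ≠ ⊥) (htop : 𝔣 ≠ ⊤) {A : Ideal (𝓞 K) → (H ≃ₐ[K] H)}
    (hA : IsArtinMap H 𝔣 P A) {γ : ℝ} (hγ : Real.pi / 2 < γ) {l : Filter ℝ} [l.NeBot]
    (hl : l ≤ atTop) (ρ : H ≃ₐ[K] H) (a c : ℂ) :
    (∀ Z, IsPartialZeta 𝔣 A ρ Z → c = a * deriv Z 0) ↔
      Tendsto (fun t : ℝ => a * approx 𝔣 A ρ γ t) l (𝓝 c) := by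
  obtain ⟨⟨Z₀, hZ₀, -⟩, h⟩ := partA hK hbot htop hA.comm ⟨hA.mul, hA.ray⟩ ρ
  have h2 : ∀ Z, IsPartialZeta 𝔣 A ρ Z →
      Tendsto (fun t : ℝ => a * approx 𝔣 A ρ γ t) l (𝓝 (a * deriv Z 0)) := fun Z hZ =>
    ((tendsto_of_isBigO ((h Z hZ).2 γ hγ)).mono_left hl).const_mul a
  constructor
  · intro h1
    rw [h1 Z₀ hZ₀]
    exact h2 Z₀ hZ₀
  · intro h1 Z hZ
    exact tendsto_nhds_unique h1 (h2 Z hZ)

end proofs

/-- See the header. -/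
theorem result :
    -- (A) the formula, for every number field, modulus and homomorphism to a finite group
    (∀ (K : Type) [Field K] [NumberField K] (P : Set (K →+* ℝ)),
      ((∃ w : InfinitePlace K, w.IsComplex) ∨ P ≠ Set.univ) →
        ∀ 𝔣 : Ideal (𝓞 K), 𝔣 ≠ ⊥ → 𝔣 ≠ ⊤ →
          ∀ (G : Type) [Group G] [Finite G], (∀ a b : G, a * b = b * a) →
            ∀ A : Ideal (𝓞 K) → G, IsRayHom 𝔣 P A → ∀ ρ : G,
              (∃ Z, IsPartialZeta 𝔣 A ρ Z ∧ ∀ s : ℂ, s ≠ 1 → AnalyticAt ℂ Z s) ∧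
              ∀ Z, IsPartialZeta 𝔣 A ρ Z → Z 0 = 0 ∧ ∀ γ : ℝ, Real.pi / 2 < γ →
                (∀ T > 0, Summable fun 𝔞 : Ideal (𝓞 K) => ‖term γ T 𝔞‖) ∧
                (fun T : ℝ => approx 𝔣 A ρ γ T - deriv Z 0) =O[atTop] fun T : ℝ => 1 / T) ∧
    -- (B) Q1
    ∀ (γ : ℝ), Real.pi / 2 < γ → ∀ l : Filter ℝ, l.NeBot → l ≤ atTop →
      ForAll (fun _ _ _ _ _ _ _ 𝔣 A v₀ w₀ => Stark 𝔣 A v₀ w₀ ↔ StarkLim γ l 𝔣 A v₀ w₀) ∧
      (ForAll (fun _ _ _ _ _ _ _ 𝔣 A v₀ w₀ => Stark 𝔣 A v₀ w₀) ↔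
        ForAll (fun _ _ _ _ _ _ _ 𝔣 A v₀ w₀ => StarkLim γ l 𝔣 A v₀ w₀)) := by
  refine ⟨?_, ?_⟩
  · intro K _ _ P hK 𝔣 hbot htop G _ _ hG A hA ρ
    obtain ⟨h1, h2⟩ := partA hK hbot htop hG hA ρ
    refine ⟨h1, fun Z hZ => ⟨(h2 Z hZ).1, fun γ hγ => ⟨fun T hT => ?_, (h2 Z hZ).2 γ hγ⟩⟩⟩
    exact (Run7.h767.ST.tm_summable γ hT).congr fun 𝔞 => by rw [term_eq]
  · intro γ hγ l hl1 hl
    have key : ForAll (fun _ _ _ _ _ _ _ 𝔣 A v₀ w₀ => Stark 𝔣 A v₀ w₀ ↔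
        StarkLim γ l 𝔣 A v₀ w₀) := by
      intro K H _ _ _ _ _ 𝔣 P hbot htop A hA v₀ hv₀ w₀ _
      have h1 : ∀ (ρ : H ≃ₐ[K] H) (c : ℂ), (∀ Z, IsPartialZeta 𝔣 A ρ Z →
          c = -(Units.torsionOrder H : ℂ) * deriv Z 0) ↔
          Tendsto (fun t : ℝ => -(Units.torsionOrder H : ℂ) * approx 𝔣 A ρ γ t) l (𝓝 c) :=
        fun ρ c => deriv_iff (split_hK hv₀) hbot htop hA hγ hl ρ _ c
      unfold Stark StarkLim
      simp only [h1]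
    refine ⟨key, ?_, ?_⟩
    · intro h K H _ _ _ _ _ 𝔣 P hbot htop A hA v₀ hv₀ w₀ hw₀
      exact (key K H 𝔣 P hbot htop A hA v₀ hv₀ w₀ hw₀).1 (h K H 𝔣 P hbot htop A hA v₀ hv₀ w₀ hw₀)
    · intro h K H _ _ _ _ _ 𝔣 P hbot htop A hA v₀ hv₀ w₀ hw₀
      exact (key K H 𝔣 P hbot htop A hA v₀ hv₀ w₀ hw₀).2 (h K H 𝔣 P hbot htop A hA v₀ hv₀ w₀ hw₀)

end Pool.Agent.Results.MP_ca56d1_nt.PartialZetaByPrimes
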