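import Pool.Agent.Run7.h787.SZ.Bridge

/-!
The rank one abelian Stark conjecture in Tate's form at a split real place: removal of primes
from `S`.
-/

open NumberField IsDedekindDomain

open scoped Classical

namespace Pool.Agent.Results.MP_ca56d1_nt.StarkPrimeRemoval

open Pool.Agent.Run7.h787.SZ

/-- `K` is a number field inside the real numbers with a second real embedding `w`, `H ⊆ ℝ` is a
finite abelian extension of `K` which is unramified outside `S`, and `S` contains the prime ideals
over `2`. If Tate's form of Stark's conjecture (for the real place `K ⊆ ℝ`) holds for the layers of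
the cyclotomic `ℤ₂`-extension of `H` and all `S ∪ R`, where `R` consists of `r` prime ideals outside
`S ∪ B`, then it holds for `H`, its layers, and `S`. -/
theorem result (K : Type) [Field K] [NumberField K] [Algebra K ℝ] (w : K →+* ℝ)
    (hw : w ≠ algebraMap K ℝ) (S B : Finset (HeightOneSpectrum (𝓞 K)))
    (H : IntermediateField K ℝ) (r : ℕ) (hS : Over2 S) (hH : Allowed H S)
    (h : ∀ R : Finset (HeightOneSpectrum (𝓞 K)), Disjoint R (S ∪ B) → R.card = r →
      ∀ n, StarkZ w (layer H n) (S ∪ R)) :
    StarkZ w H S ∧ ∀ n, StarkZ w (layer H n) S :=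
  main_strong w hw S B H r hS hH h

end Pool.Agent.Results.MP_ca56d1_nt.StarkPrimeRemoval
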